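import Mathlib
import Pool.Agent.R859.LK.Main

/-!
# Leavitt path algebras of Kronecker squares do not determine those of the quivers

Over every field `K` there are finite quivers `Q`, `Q'` with `L_K(Q ⊗ Q) ≅ L_K(Q' ⊗ Q')` but
`L_K(Q) ≇ L_K(Q')`. Here `Q` is the rose with four petals together with six isolated vertices, and
`Q'` has four vertices with one arrow from each of them to each of them, together with four
isolated vertices.
-/

set_option autoImplicit false

namespace Pool.Agent.Results.MP_40e4cd_al.KroneckerSquares

open Pool.Agent.R859.LK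

universe u

theorem result (K : Type u) [Field K] :
    ∃ Q Q' : FinQuiver, Nonempty (LPA K Q.square ≃ₐ[K] LPA K Q'.square) ∧
      IsEmpty (LPA K Q ≃ₐ[K] LPA K Q') :=
  ⟨QR (Fin 4) (Fin 6), QJ (Fin 4) (Fin 4), squares_iso K, not_iso K⟩

end Pool.Agent.Results.MP_40e4cd_al.KroneckerSquares
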